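import Mathlib
import Pool.Agent.Lib_helper37.RG.Short

/-!
# MP_229868_co: `k`-Wilf equivalence implies `(k - 1)`-Wilf equivalence up to a power of `n`

`N v n k = # R_(n,k)(v)` is the number of restricted growth functions of length `n` with exactly `k`
copies of the pattern `v`.

1. For every pattern `v` with at least two letters and all `j, k`:
`# R_(n,j)(v) ≤ n ^ C * # R_(n,k)(v)` for all `n ≥ C`, with a number `C` that depends on `v, j, k`.

2. For two patterns with at least two letters the relation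
`# R_(n,k)(v) ≤ n ^ C * # R_(n,k)(w)` for a number `C` and all `n ≥ C` is the same for all `k`.

3. All patterns `v, w` that are `k`-Wilf equivalent for one `k` satisfy
`n ^ (- C) ≤ # R_(n,j)(v) / # R_(n,j)(w) ≤ n ^ C` for every `j` and all `n ≥ C`.
-/

set_option autoImplicit false

namespace Pool.Agent.Results.MP_229868_co.PolynomialFactor

open Pool.Agent.Lib_helper37.RG

theorem result :
    -- the numbers for `j` and for `k` copies of one pattern
    (∀ v : List ℕ, IsRGF v → 2 ≤ v.length → ∀ j k : ℕ,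
      ∃ C : ℕ, ∀ n : ℕ, C ≤ n → N v n j ≤ n ^ C * N v n k) ∧
    -- comparison of two patterns does not depend on the number of copies
    (∀ v w : List ℕ, IsRGF v → IsRGF w → 2 ≤ v.length → 2 ≤ w.length → ∀ j k : ℕ,
      (∃ C : ℕ, ∀ n : ℕ, C ≤ n → N v n k ≤ n ^ C * N w n k) →
      ∃ C : ℕ, ∀ n : ℕ, C ≤ n → N v n j ≤ n ^ C * N w n j) ∧
    -- all `k`-Wilf equivalent patterns
    (∀ v w : List ℕ, IsRGF v → IsRGF w → ∀ k : ℕ, (∀ n : ℕ, N v n k = N w n k) → ∀ j : ℕ,
      ∃ C : ℕ, ∀ n : ℕ, C ≤ n → N v n j ≤ n ^ C * N w n j ∧ N w n j ≤ n ^ C * N v n j) := by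
  refine ⟨fun v hv h2 j k => main hv h2 j k,
    fun v w hv hw h2 h3 j k h => compare hv h2 hw h3 h j, ?_⟩
  intro v w hv hw k he j
  obtain ⟨A, hA⟩ := wilf hv hw he j
  obtain ⟨B, hB⟩ := wilf hw hv (fun n => (he n).symm) j
  refine ⟨A + B + 1, fun n hn => ⟨?_, ?_⟩⟩
  · exact (hA n (by omega)).trans
      (Nat.mul_le_mul_right _ (Nat.pow_le_pow_right (by omega) (by omega)))
  · exact (hB n (by omega)).trans
      (Nat.mul_le_mul_right _ (Nat.pow_le_pow_right (by omega) (by omega)))

end Pool.Agent.Results.MP_229868_co.PolynomialFactor
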